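import Pool.Agent.helper83.LS.Spec

/-! # ls:OB -/

set_option autoImplicit false

namespace LSH

theorem OB : OB_stmt := by
  refine ⟨?_, ?_, ?_, ?_⟩
  · rintro e z (⟨-, ⟨h1, h2⟩ | ⟨h1, h2⟩⟩ | ⟨-, ⟨h1, h2⟩ | ⟨h1, h2⟩⟩)
    · exact ⟨h2, by rw [h1]; exact Set.left_mem_uIcc⟩
    · exact ⟨by rw [h1]; exact Set.right_mem_uIcc, h2⟩
    · exact ⟨by rw [h1]; exact Set.left_mem_uIcc, h2⟩
    · exact ⟨h2, by rw [h1]; exact Set.right_mem_uIcc⟩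
  · intro S e m hS ha hb hm hon
    by_contra hne
    push Not at hne
    have h1 := hS m hm e.a ha hne.1
    have h2 := hS m hm e.b hb hne.2
    rcases hon with ⟨-, ⟨h3, -⟩ | ⟨h3, -⟩⟩ | ⟨-, ⟨h3, -⟩ | ⟨h3, -⟩⟩
    · exact h1.2 h3
    · exact h2.1 h3
    · exact h1.1 h3
    · exact h2.2 h3
  · intro e
    rcases hh : e.h with _ | _
    · exact ⟨Or.inr ⟨hh, Or.inl ⟨rfl, Set.left_mem_uIcc⟩⟩, Or.inr ⟨hh, Or.inr ⟨rfl, Set.right_mem_uIcc⟩⟩⟩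
    · exact ⟨Or.inl ⟨hh, Or.inl ⟨rfl, Set.left_mem_uIcc⟩⟩, Or.inl ⟨hh, Or.inr ⟨rfl, Set.right_mem_uIcc⟩⟩⟩
  · intro e f h z hf he
    exact (h z he hf).symm

end LSH
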